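import Mathlib
import Pool.Agent.U839.Sv.Fin

set_option autoImplicit false

/-! # Many windows have at most the average weight -/

open Finset Filter Topology

namespace Pool.Agent.U839.Or

open Pool.Agent.U839.Sv (W W_pos W_mono fT fT_nonneg wn sum_window exists_R log_sq_small T_small)
open Pool.Agent.U839.Thin (tlog)

/-- the sum over all windows -/
theorem windows (f : ℕ → ℝ) (hf : ∀ m, 0 ≤ f m) (x w : ℕ) :
    ∑ n ∈ Ioc x (2 * x), ∑ m ∈ Ioc n (n + w), f m ≤ w * ∑ m ∈ Ioc x (2 * x + w), f m := by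
  have h1 : ∀ n, ∑ m ∈ Ioc n (n + w), f m = ∑ j ∈ Icc 1 w, f (n + j) := by
    intro n
    have : Ioc n (n + w) = (Icc 1 w).image (fun j => n + j) := by
      ext m
      rw [mem_Ioc, mem_image]
      constructor
      · intro hm
        exact ⟨m - n, by rw [mem_Icc]; omega, by omega⟩
      · rintro ⟨j, hj, rfl⟩
        rw [mem_Icc] at hj
        omega
    rw [this, sum_image]
    intro a _ b _ hab
    simpa using hab
  simp only [h1]
  rw [sum_comm]
  have h2 : ∀ j ∈ Icc 1 w, ∑ n ∈ Ioc x (2 * x), f (n + j) ≤ ∑ m ∈ Ioc x (2 * x + w), f m := by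
    intro j hj
    rw [mem_Icc] at hj
    have h3 : ∑ n ∈ Ioc x (2 * x), f (n + j) = ∑ m ∈ (Ioc x (2 * x)).image (fun n => n + j), f m := by
      rw [sum_image]
      intro a _ b _ hab
      simpa using hab
    rw [h3]
    apply sum_le_sum_of_subset_of_nonneg
    · intro m hm
      rw [mem_image] at hm
      obtain ⟨n, hn, rfl⟩ := hm
      rw [mem_Ioc] at hn ⊢
      omega
    · intro m _ _
      exact hf m
  refine (sum_le_sum h2).trans ?_
  rw [sum_const, Nat.card_Icc, nsmul_eq_mul]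
  apply le_of_eq
  congr 2

/-- many windows have at most the average weight -/
theorem avg (T : ℕ → ℕ) (hT : Monotone T)
    (hTs : ∀ ε : ℝ, 0 < ε → ∀ᶠ n : ℕ in atTop, (T n : ℝ) ≤ (n : ℝ) ^ ε) (c : ℝ) (hc : 0 < c)
    (δ : ℝ) (hδ : 0 < δ) (hδ1 : δ ≤ 1) (η : ℝ) (hη : 0 < η) : ∀ᶠ x : ℕ in atTop, ∃ S : Finset ℕ,
      (∀ n ∈ S, x < n ∧ n ≤ 2 * x ∧
        ∑ m ∈ Ioc n (n + wn c x), fT T m / Real.log m ≤ (1 + δ) * c * Real.log x) ∧
      (x : ℝ) ^ (1 - η) ≤ S.card := by
  obtain ⟨R, hR, hRδ⟩ := exists_R (δ / 8) (by positivity)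
  obtain ⟨D, hD⟩ : ∃ D : ℕ, D = 8 * R + 18 := ⟨_, rfl⟩
  have e5 : ∀ᶠ x : ℕ in atTop, 8 / δ ≤ (x : ℝ) ^ η :=
    ((tendsto_rpow_atTop hη).comp tendsto_natCast_atTop_atTop).eventually_ge_atTop _
  have e6 : ∀ᶠ x : ℕ in atTop, 16 / δ ≤ (x : ℝ) ^ (1 / 2 : ℝ) :=
    ((tendsto_rpow_atTop (by norm_num)).comp tendsto_natCast_atTop_atTop).eventually_ge_atTop _
  filter_upwards [T_small T hTs D (by omega) (1 / 2) (by norm_num), log_sq_small c (1 / 2) hc (by norm_num),
    tlog.eventually_ge_atTop 1, eventually_ge_atTop 2, e5, e6] with x g1 g2 g3 g4 g5 g6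
  have hx0 : (0 : ℝ) < x := by exact_mod_cast (by omega : 0 < x)
  have hx1 : (1 : ℝ) ≤ x := by exact_mod_cast (by omega : 1 ≤ x)
  obtain ⟨L, hL⟩ : ∃ L, L = Real.log x := ⟨_, rfl⟩
  obtain ⟨w, hw⟩ : ∃ w, w = wn c x := ⟨_, rfl⟩
  obtain ⟨s, hs⟩ : ∃ s, s = (x : ℝ) ^ (1 / 2 : ℝ) := ⟨_, rfl⟩
  have hss : s * s = x := by
    rw [hs, ← Real.rpow_add hx0]
    norm_num
  rw [← hs] at g1 g2 g6
  rw [← hL] at g2 g3 ⊢
  have hs0 : 0 < s := by
    have : 0 < 16 / δ := by positivity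
    linarith
  have hwL : (w : ℝ) ≤ c * L ^ 2 := by
    rw [hw, hL]
    exact Nat.floor_le (by positivity)
  have hws : (w : ℝ) ≤ s := by linarith
  have hs1 : 1 ≤ s := by
    have : (16 : ℝ) ≤ 16 / δ := by
      rw [le_div_iff₀ hδ]
      linarith
    linarith
  have hsx : s ≤ δ / 16 * x := by
    rw [← hss]
    have : 1 ≤ δ / 16 * s := by
      rw [div_le_iff₀ hδ] at g6
      linarith
    nlinarith
  have hwx : w ≤ x := by
    have : (w : ℝ) ≤ x := by nlinarith
    exact_mod_cast this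
  rw [← hw]
  -- the total weight
  have hF : ∑ m ∈ Ioc x (2 * x + w), fT T m / Real.log m ≤ (1 + δ / 2) * x / L := by
    have h1 := (abs_le.1 (sum_window R hR T hT x (x + w) (T (3 * x)) (hT (by omega)))).2
    rw [← hD] at h1
    have e : x + (x + w) = 2 * x + w := by ring
    rw [e] at h1
    push_cast at h1
    have h2 : (2 : ℝ) ^ 25 * (1 / 2) ^ (2 * R) * (x + w) ≤ δ / 8 * (x + w) := by gcongr
    have h3 : ∑ m ∈ Ioc x (2 * x + w), fT T m ≤ (1 + δ / 2) * x := by
      have : δ / 8 * (w : ℝ) ≤ δ / 8 * x := by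
        have : (w : ℝ) ≤ x := by exact_mod_cast hwx
        gcongr
      linarith
    calc ∑ m ∈ Ioc x (2 * x + w), fT T m / Real.log m ≤ ∑ m ∈ Ioc x (2 * x + w), fT T m / L := by
          apply sum_le_sum
          intro m hm
          rw [mem_Ioc] at hm
          apply div_le_div_of_nonneg_left (fT_nonneg T m) (by linarith)
          rw [hL]
          exact Real.log_le_log hx0 (by exact_mod_cast hm.1.le)
      _ = (∑ m ∈ Ioc x (2 * x + w), fT T m) / L := by rw [sum_div]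
      _ ≤ (1 + δ / 2) * x / L := div_le_div_of_nonneg_right h3 (by linarith)
  have htot := windows (fun m => fT T m / Real.log m) (fun m => div_nonneg (fT_nonneg T m)
    (Real.log_natCast_nonneg m)) x w
  have htot2 : ∑ n ∈ Ioc x (2 * x), ∑ m ∈ Ioc n (n + w), fT T m / Real.log m ≤ (1 + δ / 2) * c * L * x := by
    refine htot.trans ?_
    have hF0 : 0 ≤ ∑ m ∈ Ioc x (2 * x + w), fT T m / Real.log m :=
      sum_nonneg (fun m _ => div_nonneg (fT_nonneg T m) (Real.log_natCast_nonneg m))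
    calc (w : ℝ) * ∑ m ∈ Ioc x (2 * x + w), fT T m / Real.log m ≤ (c * L ^ 2) * ((1 + δ / 2) * x / L) := by
          apply mul_le_mul hwL hF hF0 (by positivity)
      _ = (1 + δ / 2) * c * L * x := by
          field_simp
  classical
  obtain ⟨S, hS⟩ : ∃ S, S = (Ioc x (2 * x)).filter (fun n =>
    ∑ m ∈ Ioc n (n + w), fT T m / Real.log m ≤ (1 + δ) * c * L) := ⟨_, rfl⟩
  refine ⟨S, fun n hn => ?_, ?_⟩
  · rw [hS, mem_filter, mem_Ioc] at hn
    exact ⟨hn.1.1, hn.1.2, hn.2⟩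
  · obtain ⟨B, hB⟩ : ∃ B, B = (Ioc x (2 * x)).filter (fun n =>
      ¬ ∑ m ∈ Ioc n (n + w), fT T m / Real.log m ≤ (1 + δ) * c * L) := ⟨_, rfl⟩
    have hcard : (S.card : ℝ) + B.card = x := by
      have h1 := Finset.card_filter_add_card_filter_not (s := Ioc x (2 * x)) (fun n =>
        ∑ m ∈ Ioc n (n + w), fT T m / Real.log m ≤ (1 + δ) * c * L)
      rw [← hS, ← hB, Nat.card_Ioc] at h1
      have h2 : S.card + B.card = x := by omega
      exact_mod_cast h2
    have hBsum : (B.card : ℝ) * ((1 + δ) * c * L) ≤ (1 + δ / 2) * c * L * x := by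
      refine le_trans ?_ htot2
      rw [← nsmul_eq_mul]
      refine (Finset.card_nsmul_le_sum B (fun n => ∑ m ∈ Ioc n (n + w), fT T m / Real.log m) _ ?_).trans ?_
      · intro n hn
        rw [hB, mem_filter, not_le] at hn
        exact hn.2.le
      · apply sum_le_sum_of_subset_of_nonneg
        · rw [hB]
          exact filter_subset _ _
        · intro n _ _
          exact sum_nonneg (fun m _ => div_nonneg (fT_nonneg T m) (Real.log_natCast_nonneg m))
    have hB2 : (B.card : ℝ) * (1 + δ) ≤ (1 + δ / 2) * x := by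
      have hcL : 0 < c * L := by positivity
      have h1 : ((B.card : ℝ) * (1 + δ)) * (c * L) ≤ ((1 + δ / 2) * x) * (c * L) := by linarith
      exact le_of_mul_le_mul_right h1 hcL
    have hB3 : (B.card : ℝ) ≤ (1 - δ / 4) * x := by
      have h1 : (1 + δ / 2) * x ≤ ((1 - δ / 4) * x) * (1 + δ) := by
        have : 0 ≤ δ * x := by positivity
        have h2 : δ * δ * x ≤ δ * 1 * x := by gcongr
        nlinarith
      have h2 : (B.card : ℝ) * (1 + δ) ≤ ((1 - δ / 4) * x) * (1 + δ) := hB2.trans h1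
      exact le_of_mul_le_mul_right h2 (by linarith)
    have h1 : (x : ℝ) ^ (1 - η) = x / (x : ℝ) ^ η := by
      rw [Real.rpow_sub hx0, Real.rpow_one]
    rw [h1, div_le_iff₀ (by positivity)]
    have h2 : δ / 4 * x ≤ S.card := by linarith
    have h3 : (8 / δ) * (δ / 4 * x) ≤ (x : ℝ) ^ η * S.card := by gcongr
    have h4 : (8 / δ) * (δ / 4 * x) = 2 * x := by field_simp; norm_num
    linarith

end Pool.Agent.U839.Or
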