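import Mathlib
import Pool.Agent.U839.Sv.Fin
import Pool.Agent.U839.Cc.Cand
import Pool.Agent.Y835.SB.Lin2

set_option autoImplicit false

/-! # Windows of length `C log² n` are not poor, for sieves below the square root of their length -/

open Finset Filter Topology

namespace Pool.Agent.U839.Or

open Pool.Agent.U839.Sv (Pr mem_Pr W W_eq W_pos W_mono fT fT_nonneg wn sum_window exists_R log_sq_small)
open Pool.Agent.U839.Thin (tlog)
open Pool.Agent.U839.Cc (W_asymp)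

theorem W_log : ∀ᶠ t : ℕ in atTop, Real.log t ≤ W t := by
  filter_upwards [W_asymp (1 / 4) (by norm_num), tlog.eventually_ge_atTop 0] with t g1 g2
  refine le_trans ?_ g1.1
  have h1 : (1 : ℝ) + Real.eulerMascheroniConstant ≤ Real.exp Real.eulerMascheroniConstant := by
    have := Real.add_one_le_exp Real.eulerMascheroniConstant
    linarith
  have h2 := Real.one_half_lt_eulerMascheroniConstant
  have h3 : 1 ≤ (1 - 1 / 4) * Real.exp Real.eulerMascheroniConstant := by linarith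
  nlinarith

set_option maxHeartbeats 4000000 in
/-- all windows are rich -/
theorem dense (θ : ℝ) (hθ0 : 0 < θ) (hθ : θ < 1) : ∃ κ : ℝ, 0 < κ ∧ ∀ (T : ℕ → ℕ), Monotone T →
    (∀ᶠ n : ℕ in atTop, (T n : ℝ) ≤ (Real.log n) ^ θ) → ∀ C : ℝ, 1 ≤ C → ∀ᶠ n : ℕ in atTop,
      κ * (C * (Real.log n) ^ 2) ≤ ∑ m ∈ Ioc n (n + wn C n), fT T m := by
  classical
  obtain ⟨R, hR, hRδ⟩ := exists_R (1 / 4) (by norm_num)
  obtain ⟨D, hD⟩ : ∃ D : ℕ, D = 8 * R + 18 := ⟨_, rfl⟩
  have hD0 : (0 : ℝ) < D := by rw [hD]; positivity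
  obtain ⟨ζ, hζ⟩ : ∃ ζ : ℝ, ζ = (1 + θ) / 4 := ⟨_, rfl⟩
  obtain ⟨c, hc, Y0, HY⟩ := Pool.Agent.Y835.SB.lin_low ζ (by rw [hζ]; linarith) (by rw [hζ]; linarith)
  obtain ⟨t₁, ht₁⟩ := eventually_atTop.1 W_log
  refine ⟨min (1 / 16) (c / (64 * D)), lt_min (by norm_num) (by positivity), fun T hT hTθ C hC => ?_⟩
  obtain ⟨N₀, hN₀⟩ := eventually_atTop.1 hTθ
  -- growth conditions
  have hpw : Tendsto (fun n : ℕ => (Real.log n) ^ ((1 - θ) / 2)) atTop atTop :=
    (tendsto_rpow_atTop (by linarith)).comp tlog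
  have hlarge : ∀ᶠ n : ℕ in atTop, (((t₁ : ℝ) + 4) ^ (2 * D) + Y0 + 100) * 8 ≤ (Real.log n) ^ 2 :=
    ((tendsto_pow_atTop (by norm_num)).comp tlog).eventually_ge_atTop _
  filter_upwards [eventually_ge_atTop N₀, hpw.eventually_ge_atTop ((2 : ℝ) ^ θ * 8), hlarge,
    tlog.eventually_ge_atTop 4, log_sq_small C 1 (by linarith) one_pos, eventually_ge_atTop 2]
    with n g1 g2 g3 g4 g5 g6
  obtain ⟨L, hL⟩ : ∃ L, L = Real.log n := ⟨_, rfl⟩
  obtain ⟨Y, hY⟩ : ∃ Y, Y = wn C n := ⟨_, rfl⟩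
  rw [Real.rpow_one] at g5
  have hn0 : (0 : ℝ) < n := by exact_mod_cast (by omega : 0 < n)
  have hY1 : (Y : ℝ) ≤ C * L ^ 2 := by
    rw [hY, hL]
    exact Nat.floor_le (by positivity)
  have hY2 : C * L ^ 2 - 1 ≤ Y := by
    rw [hY, hL]
    exact (Nat.sub_one_lt_floor _).le
  rw [← hL] at g2 g3 g4 g5 ⊢
  rw [← hY]
  have hCL : L ^ 2 ≤ C * L ^ 2 := by nlinarith [sq_nonneg L]
  have hpos1 : (0 : ℝ) ≤ ((t₁ : ℝ) + 4) ^ (2 * D) := by positivity
  have hpos2 : (0 : ℝ) ≤ Y0 := Nat.cast_nonneg _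
  have hYbig : (((t₁ : ℝ) + 4) ^ (2 * D) + Y0 + 99) * 8 ≤ Y := by linarith
  have hYC : C * L ^ 2 ≤ 2 * Y := by linarith
  have hYn : (Y : ℝ) ≤ n := by linarith
  obtain ⟨K₁, hK₁⟩ : ∃ K₁, K₁ = Y / 2 := ⟨_, rfl⟩
  obtain ⟨K₂, hK₂⟩ : ∃ K₂, K₂ = Y - K₁ := ⟨_, rfl⟩
  have hK12 : K₁ + K₂ = Y := by omega
  have hK1Y : (Y : ℝ) ≤ 4 * K₁ := by
    have : Y ≤ 4 * K₁ := by
      have hY4 : 4 ≤ Y := by
        have : (4 : ℝ) ≤ Y := by linarith
        exact_mod_cast this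
      omega
    exact_mod_cast this
  have hK2Y : (Y : ℝ) ≤ 2 * K₂ := by
    have : Y ≤ 2 * K₂ := by omega
    exact_mod_cast this
  have hK2Y' : (K₂ : ℝ) ≤ Y := by exact_mod_cast (by omega : K₂ ≤ Y)
  have hY0' : (0 : ℝ) < Y := by linarith
  by_cases hcase : ((T (n + K₁) : ℝ) + 2) ^ D ≤ K₁ / 4
  · -- the first half
    have h1 := (abs_le.1 (sum_window R hR T hT n K₁ (T (n + K₁)) le_rfl)).1
    rw [← hD] at h1
    have h2 : (2 : ℝ) ^ 25 * (1 / 2) ^ (2 * R) * K₁ ≤ 1 / 4 * K₁ := by gcongr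
    have h3 : ∑ m ∈ Ioc n (n + K₁), fT T m ≤ ∑ m ∈ Ioc n (n + Y), fT T m := by
      apply sum_le_sum_of_subset_of_nonneg
      · intro m hm
        rw [mem_Ioc] at hm ⊢
        omega
      · intro m _ _
        exact fT_nonneg T m
    have h4 : min (1 / 16) (c / (64 * D)) * (C * L ^ 2) ≤ 1 / 16 * (2 * Y) := by
      apply mul_le_mul (min_le_left _ _) hYC (by positivity) (by norm_num)
    linarith
  · -- the second half
    push Not at hcase
    obtain ⟨t₀, ht₀⟩ : ∃ t₀, t₀ = T (n + K₁) := ⟨_, rfl⟩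
    rw [← ht₀] at hcase
    have ht0' : (0 : ℝ) ≤ t₀ := Nat.cast_nonneg _
    have hY16 : (Y : ℝ) / 16 < ((t₀ : ℝ) + 2) ^ D := by linarith
    -- `t₀` is large
    have hbig : ((t₁ : ℝ) + 4) ^ D < ((t₀ : ℝ) + 2) ^ D := by
      refine lt_of_le_of_lt ?_ hY16
      have h1 : (1 : ℝ) ≤ ((t₁ : ℝ) + 4) ^ D := one_le_pow₀ (by
        have : (0 : ℝ) ≤ t₁ := Nat.cast_nonneg _
        linarith)
      have h2 : (2 : ℝ) ≤ ((t₁ : ℝ) + 4) ^ D := by
        have h3 : (2 : ℝ) ^ 1 ≤ ((t₁ : ℝ) + 4) ^ D := by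
          calc (2 : ℝ) ^ 1 ≤ 2 ^ D := pow_le_pow_right₀ (by norm_num) (by omega)
            _ ≤ ((t₁ : ℝ) + 4) ^ D := by
                apply pow_le_pow_left₀ (by norm_num)
                have : (0 : ℝ) ≤ t₁ := Nat.cast_nonneg _
                linarith
        linarith
      have h4 : ((t₁ : ℝ) + 4) ^ (2 * D) = ((t₁ : ℝ) + 4) ^ D * ((t₁ : ℝ) + 4) ^ D := by
        rw [two_mul, pow_add]
      nlinarith
    have ht01 : (t₁ : ℝ) + 4 < (t₀ : ℝ) + 2 :=
      lt_of_pow_lt_pow_left₀ D (by positivity) hbig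
    have ht02 : t₁ ≤ t₀ := by
      have : (t₁ : ℝ) ≤ t₀ := by linarith
      exact_mod_cast this
    have ht0_2 : (2 : ℝ) < t₀ := by
      have : (0 : ℝ) ≤ t₁ := Nat.cast_nonneg _
      linarith
    have hlogY0 : 0 < Real.log Y := Real.log_pos (by linarith)
    have hlt0 : Real.log Y ≤ 4 * D * Real.log t₀ := by
      have h1 : (Y : ℝ) ≤ 16 * ((t₀ : ℝ) + 2) ^ D := by linarith
      have h2 : (t₀ : ℝ) + 2 ≤ (t₀ : ℝ) ^ 2 := by nlinarith
      have h3 : (16 : ℝ) ≤ (t₀ : ℝ) ^ (2 * D) := by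
        calc (16 : ℝ) = 2 ^ 4 := by norm_num
          _ ≤ (2 : ℝ) ^ (2 * D) := pow_le_pow_right₀ (by norm_num) (by omega)
          _ ≤ (t₀ : ℝ) ^ (2 * D) := pow_le_pow_left₀ (by norm_num) ht0_2.le _
      have h4 : (Y : ℝ) ≤ (t₀ : ℝ) ^ (4 * D) := by
        calc (Y : ℝ) ≤ 16 * ((t₀ : ℝ) + 2) ^ D := h1
          _ ≤ (t₀ : ℝ) ^ (2 * D) * ((t₀ : ℝ) ^ 2) ^ D := by gcongr
          _ = (t₀ : ℝ) ^ (4 * D) := by
              rw [← pow_mul, ← pow_add]
              congr 1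
              ring
      have h5 := Real.log_le_log hY0' h4
      rw [Real.log_pow] at h5
      push_cast at h5
      exact h5
    -- the survivors
    have hsurv := HY K₂ (by
      have : (Y0 : ℝ) ≤ K₂ := by linarith
      exact_mod_cast this) (n + K₁)
    obtain ⟨S, hS⟩ : ∃ S, S = (Icc 1 K₂).filter (fun h => ∀ p : ℕ, p.Prime → (p : ℝ) < (K₂ : ℝ) ^ ζ →
      ¬ p ∣ n + K₁ + h) := ⟨_, rfl⟩
    have hTsmall : ∀ m : ℕ, n ≤ m → m ≤ n + Y → (T m : ℝ) < (K₂ : ℝ) ^ ζ := by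
      intro m hm1 hm2
      refine lt_of_le_of_lt (hN₀ m (by omega)) ?_
      have hm0 : (0 : ℝ) < m := by exact_mod_cast (by omega : 0 < m)
      have h1 : Real.log m ≤ 2 * L := by
        have h2 : (m : ℝ) ≤ 2 * n := by
          have : (m : ℝ) ≤ n + Y := by exact_mod_cast hm2
          linarith
        have h3 := Real.log_le_log hm0 h2
        rw [Real.log_mul (by norm_num) hn0.ne', ← hL] at h3
        have := Real.log_two_lt_d9
        linarith
      have hm1' : (1 : ℝ) ≤ m := by exact_mod_cast (by omega : 1 ≤ m)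
      have h2 : (Real.log m) ^ θ ≤ (2 * L) ^ θ := Real.rpow_le_rpow (Real.log_nonneg hm1') h1 hθ0.le
      have h3 : (2 * L) ^ θ = 2 ^ θ * L ^ θ := Real.mul_rpow (by norm_num) (by linarith)
      -- `K₂ ≥ L ^ 2 / 4`
      have h4 : L ^ 2 / 4 ≤ K₂ := by linarith
      have h5 : (L ^ 2 / 4) ^ ζ ≤ (K₂ : ℝ) ^ ζ := Real.rpow_le_rpow (by positivity) h4 (by rw [hζ]; linarith)
      have h6 : (L ^ 2 / 4) ^ ζ = L ^ (2 * ζ) / 4 ^ ζ := by
        rw [Real.div_rpow (by positivity) (by norm_num), ← Real.rpow_natCast, ← Real.rpow_mul (by linarith)]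
        push_cast
        rfl
      have h7 : (4 : ℝ) ^ ζ ≤ 4 := by
        calc (4 : ℝ) ^ ζ ≤ 4 ^ (1 : ℝ) := Real.rpow_le_rpow_of_exponent_le (by norm_num) (by rw [hζ]; linarith)
          _ = 4 := Real.rpow_one 4
      have h7' : (0 : ℝ) < 4 ^ ζ := by positivity
      have h8 : L ^ (2 * ζ) = L ^ ((1 - θ) / 2) * L ^ θ := by
        rw [← Real.rpow_add (by linarith)]
        congr 1
        rw [hζ]
        ring
      have hLθ : 0 < L ^ θ := by positivity
      have h9 : 2 ^ θ * 8 * L ^ θ ≤ L ^ (2 * ζ) := by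
        rw [h8]
        gcongr
      have h2θ : (0 : ℝ) < 2 ^ θ := by positivity
      calc (Real.log m) ^ θ ≤ 2 ^ θ * L ^ θ := by rw [← h3]; exact h2
        _ < 2 ^ θ * 8 * L ^ θ / 4 := by nlinarith [mul_pos h2θ hLθ]
        _ ≤ L ^ (2 * ζ) / 4 := by linarith
        _ ≤ L ^ (2 * ζ) / 4 ^ ζ := div_le_div_of_nonneg_left (by positivity) h7' h7
        _ = (L ^ 2 / 4) ^ ζ := h6.symm
        _ ≤ (K₂ : ℝ) ^ ζ := h5
    have hsum : ∑ h ∈ S, Real.log t₀ ≤ ∑ m ∈ Ioc n (n + Y), fT T m := by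
      have h1 : ∑ h ∈ S, Real.log t₀ ≤ ∑ h ∈ S, fT T (n + K₁ + h) := by
        apply sum_le_sum
        intro h hh
        rw [hS, mem_filter, mem_Icc] at hh
        have hsift : ∀ p, p.Prime → p ≤ T (n + K₁ + h) → ¬ p ∣ n + K₁ + h := by
          intro p hp hpT
          apply hh.2 p hp
          refine lt_of_le_of_lt ?_ (hTsmall (n + K₁ + h) (by omega) (by omega))
          exact_mod_cast hpT
        unfold fT
        rw [if_pos hsift]
        refine (ht₁ t₀ ht02).trans (W_mono ?_)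
        rw [ht₀]
        exact hT (by omega)
      have h2 : ∑ h ∈ S, fT T (n + K₁ + h) ≤ ∑ m ∈ Ioc n (n + Y), fT T m := by
        have h3 : ∑ h ∈ S, fT T (n + K₁ + h) = ∑ m ∈ S.image (fun h => n + K₁ + h), fT T m := by
          rw [sum_image]
          intro a _ b _ hab
          simpa using hab
        rw [h3]
        apply sum_le_sum_of_subset_of_nonneg
        · intro m hm
          rw [mem_image] at hm
          obtain ⟨h, hh, rfl⟩ := hm
          rw [hS, mem_filter, mem_Icc] at hh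
          rw [mem_Ioc]
          omega
        · intro m _ _
          exact fT_nonneg T m
      exact h1.trans h2
    rw [sum_const, nsmul_eq_mul] at hsum
    have hSc : c * (K₂ / Real.log K₂) ≤ (S.card : ℝ) := by
      rw [hS]
      convert hsurv using 2
    have hK2pos : (1 : ℝ) < K₂ := by linarith
    have hlK : Real.log K₂ ≤ Real.log Y := Real.log_le_log (by linarith) hK2Y'
    have hlK0 : 0 < Real.log K₂ := Real.log_pos hK2pos
    have hS2 : c * (K₂ / Real.log Y) ≤ (S.card : ℝ) := by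
      refine le_trans ?_ hSc
      apply mul_le_mul_of_nonneg_left _ hc.le
      exact div_le_div_of_nonneg_left (by linarith) hlK0 hlK
    have hlt0' : Real.log Y / (4 * D) ≤ Real.log t₀ := by
      rw [div_le_iff₀ (by positivity)]
      linarith
    have hfin : c * (K₂ / Real.log Y) * (Real.log Y / (4 * D)) ≤ ∑ m ∈ Ioc n (n + Y), fT T m := by
      refine le_trans ?_ hsum
      apply mul_le_mul hS2 hlt0' (by positivity) (Nat.cast_nonneg _)
    have h5 : c * (K₂ / Real.log Y) * (Real.log Y / (4 * D)) = c / (4 * D) * K₂ := by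
      field_simp
    rw [h5] at hfin
    have h6 : min (1 / 16) (c / (64 * D)) * (C * L ^ 2) ≤ c / (64 * D) * (4 * K₂) := by
      apply mul_le_mul (min_le_right _ _) (by linarith) (by positivity) (by positivity)
    have h7 : c / (64 * D) * (4 * K₂) ≤ c / (4 * D) * K₂ := by
      have : c / (64 * D) * (4 * K₂) = 1 / 4 * (c / (4 * D) * K₂) := by
        field_simp
        norm_num
      rw [this]
      have : 0 ≤ c / (4 * D) * K₂ := by positivity
      linarith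
    linarith

end Pool.Agent.U839.Or
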