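import Mathlib
import Pool.Agent.U839.Or.Dense
import Pool.Agent.U839.Or.Avg

set_option autoImplicit false

/-! # Cramér's order of magnitude in sieved random models below Granville's exponent -/

open MeasureTheory ProbabilityTheory Filter Finset Topology

namespace Pool.Agent.U839.Or

open Pool.Agent.U839.Sv (W W_pos W_mono fT fT_nonneg wn log_sq_small Sieved law' rho_small sub_pow low up inf
  GS GS_low GS_up)
open Pool.Agent.U839.Thin (tlog)

variable {Ω : Type*} [MeasurableSpace Ω] {μ : Measure Ω} [IsProbabilityMeasure μ]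

/-- lower bound, for sub-power levels -/
theorem lower {E : ℕ → Set Ω} {T : ℕ → ℕ} (hE : Sieved μ E T) (hT : Monotone T)
    (hTs : ∀ ε : ℝ, 0 < ε → ∀ᶠ n : ℕ in atTop, (T n : ℝ) ≤ (n : ℝ) ^ ε) :
    ∀ᵐ ω ∂μ, ∀ ε : ℝ, 0 < ε → ∀ᶠ X : ℕ in atTop,
      (1 - ε) * (Real.log X) ^ 2 ≤ GS {n | ω ∈ E n} X := by
  have key : ∀ e : ℝ, 0 < e → e ≤ 1 / 4 → ∀ᵐ ω ∂μ, ∀ᶠ X : ℕ in atTop,
      (1 - e) * (Real.log X) ^ 2 ≤ GS {n | ω ∈ E n} X := by
    intro e he he1
    have h2 := low (μ := μ) hE.meas hE.indep (fun n => fT T n / Real.log n) (law' hE hTs) (1 - e / 2)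
      ((1 + e / 8) * (1 - e / 2)) (e / 32) (by linarith) (by positivity)
      (rho_small T hTs (e / 32) (by positivity)) (by linarith) (by nlinarith [sq_nonneg e])
      (fun _ => True) (by
        filter_upwards [avg T hT hTs (1 - e / 2) (by linarith) (e / 8) (by positivity) (by linarith)
          (e / 32) (by positivity)] with x g1 _
        exact g1)
    filter_upwards [h2, inf hE hT hTs] with ω k2 k3
    have k4 := GS_low {n | ω ∈ E n} k3 (1 - e / 2) (1 - e) (by linarith) (by linarith) (fun _ => True) k2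
    filter_upwards [k4] with X l1
    exact l1 trivial
  have h1 : ∀ᵐ ω ∂μ, ∀ k : ℕ, ∀ᶠ X : ℕ in atTop,
      (1 - 1 / ((k : ℝ) + 4)) * (Real.log X) ^ 2 ≤ GS {n | ω ∈ E n} X := by
    rw [ae_all_iff]
    intro k
    apply key _ (by positivity)
    rw [div_le_div_iff_of_pos_left one_pos (by positivity) (by norm_num)]
    have : (0 : ℝ) ≤ k := Nat.cast_nonneg _
    linarith
  filter_upwards [h1] with ω hω ε hε
  obtain ⟨k, hk⟩ := exists_nat_one_div_lt hε
  filter_upwards [hω k] with X hX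
  refine le_trans ?_ hX
  apply mul_le_mul_of_nonneg_right _ (sq_nonneg _)
  have : (1 : ℝ) / ((k : ℝ) + 4) ≤ 1 / ((k : ℝ) + 1) := by
    apply div_le_div_of_nonneg_left (by norm_num) (by positivity) (by linarith)
  linarith

/-- upper bound -/
theorem upper.{u} (θ : ℝ) (hθ0 : 0 < θ) (hθ : θ < 1) : ∃ C : ℝ, 0 < C ∧ ∀ (T : ℕ → ℕ), Monotone T →
    (∀ᶠ n : ℕ in atTop, (T n : ℝ) ≤ (Real.log n) ^ θ) →
    ∀ (Ω : Type u) [MeasurableSpace Ω] (μ : Measure Ω) [IsProbabilityMeasure μ] (E : ℕ → Set Ω),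
      Sieved μ E T → ∀ᵐ ω ∂μ, ∀ᶠ X : ℕ in atTop,
        (GS {n | ω ∈ E n} X : ℝ) ≤ C * (Real.log X) ^ 2 := by
  obtain ⟨κ, hκ, H⟩ := dense θ hθ0 hθ
  obtain ⟨C, hC⟩ : ∃ C : ℝ, C = max 1 (4 / κ) := ⟨_, rfl⟩
  have hC1 : 1 ≤ C := by rw [hC]; exact le_max_left _ _
  have hCκ : 4 ≤ κ * C := by
    have h1 : 4 / κ ≤ C := by rw [hC]; exact le_max_right _ _
    rw [div_le_iff₀ hκ] at h1
    linarith
  refine ⟨C + 1, by linarith, fun T hT hTθ Ω _ μ _ E hE => ?_⟩
  have hTs := sub_pow T θ hTθ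
  have h1 := up (μ := μ) hE.meas hE.indep (fun n => fT T n / Real.log n) (law' hE hTs)
    (wn C) 2 (by norm_num) (by
      filter_upwards [H T hT hTθ C hC1, log_sq_small C 1 (by linarith) one_pos,
        tlog.eventually_ge_atTop 1, eventually_ge_atTop 2] with n h2 g3 g4 g5
      have hn0 : (0 : ℝ) < n := by exact_mod_cast (by omega : 0 < n)
      rw [Real.rpow_one] at g3
      obtain ⟨L, hL⟩ : ∃ L, L = Real.log n := ⟨_, rfl⟩
      obtain ⟨K, hK⟩ : ∃ K, K = wn C n := ⟨_, rfl⟩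
      have hKL : (K : ℝ) ≤ C * L ^ 2 := by
        rw [hK, hL]
        exact Nat.floor_le (by positivity)
      rw [← hL] at g3 g4 h2 ⊢
      rw [← hK] at h2 ⊢
      have hKn : (K : ℝ) ≤ n := by linarith
      have hlog2 : Real.log (2 * n) ≤ L + 1 := by
        rw [Real.log_mul (by norm_num) hn0.ne', hL]
        have := Real.log_two_lt_d9
        linarith
      have h5 : (∑ m ∈ Ioc n (n + K), fT T m) / (L + 1) ≤
          ∑ m ∈ Ioc n (n + K), fT T m / Real.log m := by
        rw [Finset.sum_div]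
        apply Finset.sum_le_sum
        intro m hm
        rw [Finset.mem_Ioc] at hm
        have hm1 : (1 : ℝ) < m := by exact_mod_cast (by omega : 1 < m)
        apply div_le_div_of_nonneg_left (fT_nonneg T m) (Real.log_pos hm1)
        refine le_trans ?_ hlog2
        apply Real.log_le_log (by linarith)
        have : (m : ℝ) ≤ ((n + K : ℕ) : ℝ) := by exact_mod_cast hm.2
        push_cast at this
        linarith
      refine le_trans ?_ h5
      rw [le_div_iff₀ (by linarith)]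
      refine le_trans ?_ h2
      have h6 : 4 * L ^ 2 ≤ κ * (C * L ^ 2) := by
        have := mul_le_mul_of_nonneg_right hCκ (sq_nonneg L)
        linarith
      refine le_trans ?_ h6
      nlinarith)
  filter_upwards [h1, inf hE hT hTs] with ω k1 k3
  exact GS_up {n | ω ∈ E n} k3 C (C + 1) (by linarith) (by linarith) k1

end Pool.Agent.U839.Or
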