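import Mathlib
import Pool.Agent.U839.Or.Fin

set_option autoImplicit false

/-! # The largest gap between elements up to `X` -/

open MeasureTheory ProbabilityTheory Filter Finset Topology

namespace Pool.Agent.U839.Or

open Pool.Agent.U839.Sv (W W_pos W_mono fT fT_nonneg wn log_sq_small Sieved law' rho_small sub_pow low up inf
  GS GS_low GS_up exists_R T_small sum_window GS_bdd)
open Pool.Agent.U839.Thin (tlog)

variable {Ω : Type*} [MeasurableSpace Ω] {μ : Measure Ω} [IsProbabilityMeasure μ]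

/-- elements in all dyadic intervals -/
theorem dbl {E : ℕ → Set Ω} {T : ℕ → ℕ} (h : Sieved μ E T) (hT : Monotone T)
    (hTs : ∀ ε : ℝ, 0 < ε → ∀ᶠ n : ℕ in atTop, (T n : ℝ) ≤ (n : ℝ) ^ ε) :
    ∀ᵐ ω ∂μ, ∀ᶠ n : ℕ in atTop, ∃ m : ℕ, n < m ∧ m ≤ n + n ∧ ω ∈ E m := by
  obtain ⟨R, hR, hRδ⟩ := exists_R (1 / 4) (by norm_num)
  have h1 := up (μ := μ) h.meas h.indep (fun n => fT T n / Real.log n) (law' h hTs) (fun n => n) 2
    (by norm_num) (by
      filter_upwards [T_small T hTs (8 * R + 18) (by omega) (1 / 2) (by norm_num),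
        log_sq_small 100 (1 / 2) (by norm_num) (by norm_num), tlog.eventually_ge_atTop 1,
        eventually_ge_atTop 256] with n g1 g2 g3 g4
      have hn1 : (256 : ℝ) ≤ n := by exact_mod_cast g4
      have hn0 : (0 : ℝ) < n := by linarith
      have h2 := sum_window R hR T hT n n (T (3 * n)) (hT (by omega))
      have h3 := (abs_le.1 h2).1
      obtain ⟨s, hs⟩ : ∃ s : ℝ, s = (n : ℝ) ^ (1 / 2 : ℝ) := ⟨_, rfl⟩
      have hs2 : s * s = n := by
        rw [hs, ← Real.rpow_add hn0]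
        norm_num
      have hs16 : 16 ≤ s := by
        have h0 : 0 ≤ s := by rw [hs]; positivity
        nlinarith
      rw [← hs] at g1 g2
      have h4 : 1 / 2 * (n : ℝ) ≤ ∑ m ∈ Ioc n (n + n), fT T m := by
        have h5 : (2 : ℝ) ^ 25 * (1 / 2) ^ (2 * R) * n ≤ 1 / 4 * n := by gcongr
        nlinarith
      obtain ⟨L, hL⟩ : ∃ L, L = Real.log n := ⟨_, rfl⟩
      rw [← hL] at g2 g3 ⊢
      have hlog2 : Real.log (2 * n) ≤ L + 1 := by
        rw [Real.log_mul (by norm_num) hn0.ne', hL]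
        have := Real.log_two_lt_d9
        linarith
      have h5 : (∑ m ∈ Ioc n (n + n), fT T m) / (L + 1) ≤
          ∑ m ∈ Ioc n (n + n), fT T m / Real.log m := by
        rw [Finset.sum_div]
        apply Finset.sum_le_sum
        intro m hm
        rw [Finset.mem_Ioc] at hm
        have hm1 : (1 : ℝ) < m := by exact_mod_cast (by omega : 1 < m)
        apply div_le_div_of_nonneg_left (fT_nonneg T m) (Real.log_pos hm1)
        refine le_trans ?_ hlog2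
        apply Real.log_le_log (by linarith)
        have : (m : ℝ) ≤ ((n + n : ℕ) : ℝ) := by exact_mod_cast hm.2
        push_cast at this
        linarith
      refine le_trans ?_ h5
      rw [le_div_iff₀ (by linarith)]
      have h6 : 100 * L ^ 2 ≤ s := by linarith
      have h7 : s ≤ n := by nlinarith
      nlinarith)
  exact h1

/-- the largest gap between consecutive elements `≤ X` -/
noncomputable def G2 (Q : Set ℕ) (X : ℕ) : ℕ :=
  sSup {g | ∃ k, Nat.nth (· ∈ Q) (k + 1) ≤ X ∧ g = Nat.nth (· ∈ Q) (k + 1) - Nat.nth (· ∈ Q) k}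

theorem G2_le (Q : Set ℕ) (hQ : Q.Infinite) (X : ℕ) : G2 Q X ≤ GS Q X := by
  have hQ' : (Set.ofPred (· ∈ Q)).Infinite := hQ
  have hmono := Nat.nth_strictMono hQ'
  apply csSup_le'
  rintro g ⟨k, hk, rfl⟩
  apply le_csSup (GS_bdd Q hQ X)
  exact ⟨k, (hmono.monotone (Nat.le_succ k)).trans hk, rfl⟩

theorem G2_bdd (Q : Set ℕ) (hQ : Q.Infinite) (X : ℕ) : BddAbove
    {g | ∃ k, Nat.nth (· ∈ Q) (k + 1) ≤ X ∧ g = Nat.nth (· ∈ Q) (k + 1) - Nat.nth (· ∈ Q) k} := by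
  have hQ' : (Set.ofPred (· ∈ Q)).Infinite := hQ
  have hmono := Nat.nth_strictMono hQ'
  apply (GS_bdd Q hQ X).mono
  rintro g ⟨k, hk, rfl⟩
  exact ⟨k, (hmono.monotone (Nat.le_succ k)).trans hk, rfl⟩

theorem G2_ge (Q : Set ℕ) (hQ : Q.Infinite)
    (h : ∀ᶠ n : ℕ in atTop, ∃ m : ℕ, n < m ∧ m ≤ n + n ∧ m ∈ Q) :
    ∀ᶠ X : ℕ in atTop, GS Q (X / 2) ≤ G2 Q X := by
  classical
  have hQ' : (Set.ofPred (· ∈ Q)).Infinite := hQ
  have hmono := Nat.nth_strictMono hQ'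
  obtain ⟨n₀, hn₀⟩ := eventually_atTop.1 h
  filter_upwards [eventually_ge_atTop (2 * n₀ + 2 * Nat.nth (· ∈ Q) 0)] with X hX
  have hmem := Nat.sSup_mem (s := {g | ∃ k, Nat.nth (· ∈ Q) k ≤ X / 2 ∧
    g = Nat.nth (· ∈ Q) (k + 1) - Nat.nth (· ∈ Q) k}) ⟨_, 0, by omega, rfl⟩ (GS_bdd Q hQ (X / 2))
  obtain ⟨k, hk, hg⟩ := hmem
  change GS Q (X / 2) = _ at hg
  rw [hg]
  apply le_csSup (G2_bdd Q hQ X)
  refine ⟨k, ?_, rfl⟩
  obtain ⟨m, h1, h2, h3⟩ := hn₀ (max (Nat.nth (· ∈ Q) k) n₀) (le_max_right _ _)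
  have h4 : max (Nat.nth (· ∈ Q) k) n₀ ≤ X / 2 := max_le hk (by omega)
  have h5 : Nat.nth (· ∈ Q) k < m := lt_of_le_of_lt (le_max_left _ _) h1
  have h6 : k < Nat.count (· ∈ Q) m := (Nat.lt_nth_iff_count_lt hQ').2 h5
  have h7 : Nat.nth (· ∈ Q) (Nat.count (· ∈ Q) m) = m := Nat.nth_count (p := (· ∈ Q)) h3
  have h8 : Nat.nth (· ∈ Q) (k + 1) ≤ m := by
    rw [← h7]
    exact hmono.monotone h6
  omega

/-- lower bound, for sub-power levels -/
theorem lower2 {E : ℕ → Set Ω} {T : ℕ → ℕ} (hE : Sieved μ E T) (hT : Monotone T)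
    (hTs : ∀ ε : ℝ, 0 < ε → ∀ᶠ n : ℕ in atTop, (T n : ℝ) ≤ (n : ℝ) ^ ε) :
    ∀ᵐ ω ∂μ, ∀ ε : ℝ, 0 < ε → ∀ᶠ X : ℕ in atTop,
      (1 - ε) * (Real.log X) ^ 2 ≤ G2 {n | ω ∈ E n} X := by
  filter_upwards [lower hE hT hTs, dbl hE hT hTs, inf hE hT hTs] with ω h1 h2 h3 ε hε
  have hdiv : Tendsto (fun X : ℕ => X / 2) atTop atTop := Nat.tendsto_div_const_atTop (by norm_num)
  obtain ⟨e, he, he1, he2⟩ : ∃ e : ℝ, 0 < e ∧ e ≤ 1 / 4 ∧ e ≤ ε :=
    ⟨min (1 / 4) ε, lt_min (by norm_num) hε, min_le_left _ _, min_le_right _ _⟩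
  filter_upwards [hdiv.eventually (h1 (e / 2) (by positivity)), G2_ge {n | ω ∈ E n} h3 h2,
    tlog.eventually_ge_atTop (16 / e), eventually_ge_atTop 4] with X g1 g2 g3 g4
  have g2' : (GS {n | ω ∈ E n} (X / 2) : ℝ) ≤ G2 {n | ω ∈ E n} X := by exact_mod_cast g2
  refine le_trans ?_ (g1.trans g2')
  have hX0 : (0 : ℝ) < X := by exact_mod_cast (by omega : 0 < X)
  have h4 : Real.log X - 2 ≤ Real.log ((X / 2 : ℕ) : ℝ) := by
    have h5 : (X : ℝ) / 4 ≤ ((X / 2 : ℕ) : ℝ) := by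
      have : X ≤ 4 * (X / 2) := by omega
      have h6 : (X : ℝ) ≤ 4 * ((X / 2 : ℕ) : ℝ) := by exact_mod_cast this
      linarith
    have h7 := Real.log_le_log (by positivity) h5
    rw [Real.log_div hX0.ne' (by norm_num)] at h7
    have h8 : Real.log 4 ≤ 2 := by
      have : (4 : ℝ) = 2 ^ 2 := by norm_num
      rw [this, Real.log_pow]
      have := Real.log_two_lt_d9
      push_cast
      linarith
    linarith
  have h9 : 16 ≤ e * Real.log X := by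
    rw [div_le_iff₀ he] at g3
    linarith
  obtain ⟨L, hL⟩ : ∃ L, L = Real.log X := ⟨_, rfl⟩
  rw [← hL] at h4 h9 ⊢
  have hL64 : 64 ≤ L := by nlinarith
  have h10 : (L - 2) ^ 2 ≤ (Real.log ((X / 2 : ℕ) : ℝ)) ^ 2 := by
    apply pow_le_pow_left₀ (by linarith) h4
  have h11 : (1 - ε) * L ^ 2 ≤ (1 - e) * L ^ 2 := by
    apply mul_le_mul_of_nonneg_right (by linarith) (sq_nonneg _)
  have h12 : (1 - e) * L ^ 2 ≤ (1 - e / 2) * (L - 2) ^ 2 := by
    have : (1 - e / 2) * (L - 2) ^ 2 - (1 - e) * L ^ 2 = e / 2 * L ^ 2 - (1 - e / 2) * (4 * L) + (1 - e / 2) * 4 := by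
      ring
    have h13 : (1 - e / 2) * (4 * L) ≤ 1 * (4 * L) := by
      apply mul_le_mul_of_nonneg_right (by linarith) (by linarith)
    have h14 : 8 * L ≤ e / 2 * L ^ 2 := by nlinarith
    nlinarith
  refine h11.trans (h12.trans ?_)
  apply mul_le_mul_of_nonneg_left h10 (by linarith)

/-- upper bound -/
theorem upper2.{u} (θ : ℝ) (hθ0 : 0 < θ) (hθ : θ < 1) : ∃ C : ℝ, 0 < C ∧ ∀ (T : ℕ → ℕ), Monotone T →
    (∀ᶠ n : ℕ in atTop, (T n : ℝ) ≤ (Real.log n) ^ θ) →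
    ∀ (Ω : Type u) [MeasurableSpace Ω] (μ : Measure Ω) [IsProbabilityMeasure μ] (E : ℕ → Set Ω),
      Sieved μ E T → ∀ᵐ ω ∂μ, ∀ᶠ X : ℕ in atTop,
        (G2 {n | ω ∈ E n} X : ℝ) ≤ C * (Real.log X) ^ 2 := by
  obtain ⟨C, hC, H⟩ := upper.{u} θ hθ0 hθ
  refine ⟨C, hC, fun T hT hTθ Ω _ μ _ E hE => ?_⟩
  filter_upwards [H T hT hTθ Ω μ E hE, inf hE hT (sub_pow T θ hTθ)] with ω h1 h2
  filter_upwards [h1] with X h3
  refine le_trans ?_ h3
  exact_mod_cast G2_le _ h2 X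

end Pool.Agent.U839.Or
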